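import Pool.Agent.Lib.MP_688fd0_co.TF.Compat
import Pool.Agent.Lib.MP_688fd0_co.TE.H30.Levs

/-!
# Theorem F, module LEVSF: good levels exist
-/

set_option autoImplicit false
set_option linter.all false

namespace Pool.Agent.Lib.MP_688fd0_co.TF.H30

open Pool.Agent.Lib.MP_688fd0_co.TE
open Pool.Agent.Lib.MP_688fd0_co.TE.H30 (sum4 isPr_unifW isPr4 pr4 sum_ind_tw)

universe u

/-! ### The first value -/

section fo

variable {A : Type} {T a : ℕ}

theorem FI_unique {ω : Fin T → Fin a → Option A} {l l' : A} (h : FI ω l) (h' : FI ω l') :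
    l = l' := by
  obtain ⟨t, j, h1, h2⟩ := h
  obtain ⟨t', j', h1', h2'⟩ := h'
  rcases lt_trichotomy t t' with ht | ht | ht
  · have := h2' t j (Or.inl ht)
    rw [h1] at this
    cases this
  · subst ht
    rcases lt_trichotomy j j' with hj | hj | hj
    · have := h2' t j (Or.inr ⟨rfl, hj⟩)
      rw [h1] at this
      cases this
    · subst hj
      rw [h1] at h1'
      exact Option.some.inj h1'
    · have := h2 t j' (Or.inr ⟨rfl, hj⟩)
      rw [h1'] at this
      cases this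
  · have := h2 t' j' (Or.inl ht)
    rw [h1'] at this
    cases this

theorem fo_some {ω : Fin T → Fin a → Option A} {l : A} (h : FI ω l) : fo ω = some l := by
  have hex : ∃ l, FI ω l := ⟨l, h⟩
  unfold fo
  rw [dif_pos hex, FI_unique hex.choose_spec h]

theorem fo_none {ω : Fin T → Fin a → Option A} (h : ∀ t j, ω t j = none) : fo ω = none := by
  unfold fo
  rw [dif_neg]
  rintro ⟨l, t, j, h1, -⟩
  rw [h] at h1
  cases h1

end fo

/-! ### Light sets -/

section light

variable {G : Type u} [Group G] [Fintype G] [DecidableEq G]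

theorem light_or (hPK : PKSC_S.{u}) (c : Ctx G) (hX : 10 ^ 6 ≤ c.X) {N : ℕ} (g : Gad c N)
    (hN : 4 ≤ N) (D : G → Prop)
    (hD : ∀ M, c.TK 1 M → ∀ y, ∑ x, ind (D x) * M y x ≤ 1 / c.X ^ 4) :
    c.Light 1 (fun w => g.W w ∨ D w) (1 / c.X ^ 3) := by
  intro M hM y
  have hp := hPK G c
  have hds : SS M := hp.2.2.2.2.2.2.1 1 M hM.1
  have hMN : c.TK N M := hp.2.2.2.2.2.2.2.2.2.1 1 N M (by omega) hM
  have h0 := g.light false M hMN y
  have h1 := g.light true M hMN y
  have h2 := hD M hM y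
  have hX0 : 0 < c.X := by linarith
  have h3 : ∑ x, ind (g.W x ∨ D x) * M y x ≤
      (∑ x, ind (∃ e ∈ g.res.E false, x ∈ g.Vs false e) * M y x) +
      (∑ x, ind (∃ e ∈ g.res.E true, x ∈ g.Vs true e) * M y x) +
      ∑ x, ind (D x) * M y x := by
    rw [← Finset.sum_add_distrib, ← Finset.sum_add_distrib]
    refine Finset.sum_le_sum fun x _ => ?_
    rw [← add_mul, ← add_mul]
    refine mul_le_mul_of_nonneg_right ?_ (hds.nn _ _)
    have n0 := ind_nonneg (∃ e ∈ g.res.E false, x ∈ g.Vs false e)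
    have n1 := ind_nonneg (∃ e ∈ g.res.E true, x ∈ g.Vs true e)
    have n2 := ind_nonneg (D x)
    by_cases h : g.W x ∨ D x
    · rw [ind_of h]
      rcases h with ⟨τ, h⟩ | h
      · cases τ with
        | false => rw [ind_of h]; linarith
        | true => rw [ind_of h]; linarith
      · rw [ind_of h]; linarith
    · rw [ind_not h]; linarith
  have h4 : c.del false ≤ 1 / c.X ^ 4 := by
    have : c.del false = 1 / c.X ^ 390 := by simp [Ctx.del]
    rw [this]
    exact one_div_le_one_div_of_le (by positivity) (pow_le_pow_right₀ (by linarith) (by norm_num))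
  have h5 : c.del true ≤ 1 / c.X ^ 4 := by
    have : c.del true = 1 / c.X ^ 2990 := by simp [Ctx.del]
    rw [this]
    exact one_div_le_one_div_of_le (by positivity) (pow_le_pow_right₀ (by linarith) (by norm_num))
  have h6 : 3 * (1 / c.X ^ 4) ≤ 1 / c.X ^ 3 := by
    rw [mul_one_div, div_le_div_iff₀ (by positivity) (by positivity)]
    have : c.X ^ 4 = c.X ^ 3 * c.X := by ring
    rw [this]
    have h7 : 0 < c.X ^ 3 := by positivity
    nlinarith
  show ∑ x, ind (g.W x ∨ D x) * M y x ≤ 1 / c.X ^ 3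
  linarith

end light

/-! ### Levels of ports -/

section ports

variable {G : Type u} [Group G] [Fintype G] [DecidableEq G] {c : Ctx G} {N : ℕ} (g : Gad c N)

theorem gad_eq {τ τ' : Bool} {e e' : G × G} (he : e ∈ g.res.E τ) (he' : e' ∈ g.res.E τ') {v : G}
    (hv : v ∈ g.Vs τ e) (hv' : v ∈ g.Vs τ' e') : (τ, e) = (τ', e') := by
  by_contra h
  exact Finset.disjoint_left.1 (g.disj τ τ' e e' he he' h) hv hv'

theorem i_mem {τ : Bool} {e : G × G} (he : e ∈ g.res.E τ) : g.i τ e ∈ g.Vs τ e := by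
  have ok := g.ok τ e he
  rw [← ok.av]
  exact List.mem_of_mem_head? (by rw [ok.ah]; rfl)

theorem o_mem {τ : Bool} {e : G × G} (he : e ∈ g.res.E τ) : g.o τ e ∈ g.Vs τ e := by
  have ok := g.ok τ e he
  rw [← ok.av]
  exact List.mem_of_mem_getLast? (by rw [ok.al]; rfl)

theorem lev_port_false {m : ℕ} (lam : G ⊕ (G × G) → ZMod m) {e : G × G}
    (he : e ∈ g.res.E false) {v : G} (hv : v = g.i false e ∨ v = g.o false e) :
    g.lev lam v = lam (Sum.inr e) := by
  have hmem : v ∈ g.Vs false e := by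
    rcases hv with rfl | rfl
    · exact i_mem g he
    · exact o_mem g he
  have hW : g.W v := ⟨false, e, he, hmem⟩
  have hex : ∃ e, e ∈ g.res.E false ∧ (v = g.i false e ∨ v = g.o false e) := ⟨e, he, hv⟩
  unfold Gad.lev
  rw [if_neg (not_not.2 hW), dif_pos hex]
  have h1 := hex.choose_spec
  have key : ∀ e', e' ∈ g.res.E false → (v = g.i false e' ∨ v = g.o false e') →
      v ∈ g.Vs false e' := by
    rintro e' he' (h | h)
    · rw [h]; exact i_mem g he'
    · rw [h]; exact o_mem g he'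
  have hmem' : v ∈ g.Vs false hex.choose := key _ h1.1 h1.2
  have := gad_eq g h1.1 he hmem' hmem
  rw [(Prod.mk.inj this).2]

theorem lev_port_true {m : ℕ} (lam : G ⊕ (G × G) → ZMod m) {e : G × G}
    (he : e ∈ g.res.E true) {v : G} (hmem : v ∈ g.Vs true e) :
    g.lev lam v = 0 := by
  have hW : g.W v := ⟨true, e, he, hmem⟩
  unfold Gad.lev
  rw [if_neg (not_not.2 hW), dif_neg]
  rintro ⟨e', he', h⟩
  have hmem' : v ∈ g.Vs false e' := by
    rcases h with h | h
    · rw [h]; exact i_mem g he'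
    · rw [h]; exact o_mem g he'
  have := gad_eq g he' he hmem' hmem
  exact absurd (Prod.mk.inj this).1 (by decide)

theorem lev_io {m : ℕ} (lam : G ⊕ (G × G) → ZMod m) (τ : Bool) (e : G × G)
    (he : e ∈ g.res.E τ) : g.lev lam (g.i τ e) = g.lev lam (g.o τ e) := by
  cases τ with
  | false =>
    rw [lev_port_false g lam he (Or.inl rfl), lev_port_false g lam he (Or.inr rfl)]
  | true =>
    rw [lev_port_true g lam he (i_mem g he), lev_port_true g lam he (o_mem g he)]

theorem lev_out {m : ℕ} (lam : G ⊕ (G × G) → ZMod m) {v : G} (hv : ¬ g.W v) :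
    g.lev lam v = lam (Sum.inl v) := by
  unfold Gad.lev
  rw [if_pos hv]

end ports

/-! ### The event of one colour -/

section event

variable {G : Type u} [Group G] [Fintype G] [DecidableEq G]

theorem sum_kp (hPK : PKSC_S.{u}) (c : Ctx G) (τ par : Bool) (j j' : ℕ) (x v : G)
    (h1 : 1 ≤ j) (h2 : j ≤ j') (h3 : j' ≤ j + 6) (h4 : j' < 6 * c.ha par) (φ : G → ℝ) (g : G) :
    ∑ x, φ x * c.kp τ (c.ha par) j j' g x v = 2 * ∑ x, φ x * (c.hk τ par j j' g).transpose v x := by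
  rw [Finset.mul_sum]
  refine Finset.sum_congr rfl fun x _ => ?_
  show _ = 2 * (φ x * (1 / 2 * c.kp τ (c.ha par) j j' g x v))
  ring

theorem ev_le (hLD : LDF_S.{u, 0}) (hLS : LSF_S.{u, 0}) (hPK : PKSC_S.{u}) (hNU : NUMC_S.{u})
    (c : Ctx G) {N : ℕ} (g : Gad c N) (hN : 4 ≤ N) (τ : Bool) (m : ℕ) [NeZero m] (i : ZMod m)
    (M : LM G (ZMod m) (6 * c.k + 2)) (hM : c.IsLev τ (1 / c.X ^ 5) m i M)
    (hlaw : IsPr M.law) :
    Pr M.law (fun ω => ¬ g.LG M (c.q τ) ω) ≤ 1 / (Fintype.card G : ℝ) ^ 10 := by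
  obtain ⟨hX, -, -, -, -, -, hq, hb0, hbX, hbn, -, -, -, -⟩ := hNU G c
  have hX0 : 0 < c.X := by linarith
  have hX1 : 1 ≤ c.X := by linarith
  have hn : c.X ^ 200000 ≤ Fintype.card G := hbX.trans hbn
  have hnX : c.X ≤ Fintype.card G := by
    calc c.X = c.X ^ 1 := (pow_one _).symm
      _ ≤ c.X ^ 200000 := pow_le_pow_right₀ hX1 (by norm_num)
      _ ≤ _ := hn
  have hn6 : (10 : ℝ) ^ 6 ≤ Fintype.card G := hX.trans hnX
  have hp := hPK G c
  have hTK1 := hp.2.2.2.2.2.2.2.2.2.2.2.2.1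
  -- the three bounds
  have b1 := hLD G c τ 1 (ZMod m) (6 * c.k + 2) M c.jl (fun _ => 1) 1 hM.inst
    (fun _ => ⟨zero_le_one, le_refl _⟩) (by
      rw [div_le_one (by positivity)]
      exact one_le_pow₀ hX1) (fun par j j' x v h1 h2 h3 h4 => by
        rw [sum_kp hPK c τ par j j' x v h1 h2 h3 h4]
        refine mul_le_mul_of_nonneg_left ?_ (by norm_num)
        simp only [one_mul]
        exact (hp.2.2.2.2.2.2.1 1 _ (hTK1 τ par j j' x h1 h2 h3 h4).1).row v)
  have hdel : c.del true = 1 / c.X ^ 2990 := by simp [Ctx.del]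
  have b2 := hLD G c τ 1 (ZMod m) (6 * c.k + 2) M c.jl
    (fun x => ind (∃ e ∈ g.res.E true, x ∈ g.Vs true e)) (1 / c.X ^ 2990) hM.inst
    (fun _ => ⟨ind_nonneg _, ind_le_one _⟩) (one_div_le_one_div_of_le (by positivity)
      (pow_le_pow_right₀ hX1 (by norm_num))) (fun par j j' x v h1 h2 h3 h4 => by
        rw [sum_kp hPK c τ par j j' x v h1 h2 h3 h4]
        refine mul_le_mul_of_nonneg_left ?_ (by norm_num)
        rw [← hdel]
        exact g.light true _ (hp.2.2.2.2.2.2.2.2.2.1 1 N _ (by omega)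
          (hTK1 τ par j j' x h1 h2 h3 h4)) v)
  have b3 := hLS G c τ 1 (ZMod m) (6 * c.k + 2) M c.jl hM.inst
  have hsub : Pr M.law (fun ω => ¬ g.LG M (c.q τ) ω) ≤
      Pr M.law (fun ω => ¬ M.LD c.jl c.X (c.q τ) ω (fun _ => 1) 1 ∨
        (¬ M.LD c.jl c.X (c.q τ) ω (fun x => ind (∃ e ∈ g.res.E true, x ∈ g.Vs true e))
          (1 / c.X ^ 2990) ∨ ¬ M.LS c.jl c.X (c.q τ) c.b1 ω)) := by
    refine H97.pr_mono _ hlaw.nn _ _ fun ω hω => ?_
    unfold Gad.LG at hω
    by_contra hc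
    push Not at hc
    exact hω hc
  have a1 := H97.pr_or M.law hlaw.nn (fun ω => ¬ M.LD c.jl c.X (c.q τ) ω (fun _ => 1) 1)
    (fun ω => ¬ M.LD c.jl c.X (c.q τ) ω (fun x => ind (∃ e ∈ g.res.E true, x ∈ g.Vs true e))
          (1 / c.X ^ 2990) ∨ ¬ M.LS c.jl c.X (c.q τ) c.b1 ω)
  have a2 := H97.pr_or M.law hlaw.nn
    (fun ω => ¬ M.LD c.jl c.X (c.q τ) ω (fun x => ind (∃ e ∈ g.res.E true, x ∈ g.Vs true e))
          (1 / c.X ^ 2990)) (fun ω => ¬ M.LS c.jl c.X (c.q τ) c.b1 ω)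
  have hfin : 3 * (1 / (Fintype.card G : ℝ) ^ 14) ≤ 1 / (Fintype.card G : ℝ) ^ 10 := by
    have hn0 : (0 : ℝ) < Fintype.card G := by linarith
    rw [mul_one_div, div_le_div_iff₀ (by positivity) (by positivity)]
    have e1 : (Fintype.card G : ℝ) ^ 14 = (Fintype.card G : ℝ) ^ 10 * (Fintype.card G : ℝ) ^ 4 := by
      ring
    rw [e1, one_mul, mul_comm (3 : ℝ)]
    refine mul_le_mul_of_nonneg_left ?_ (by positivity)
    calc (3 : ℝ) ≤ Fintype.card G := by linarith
      _ = (Fintype.card G : ℝ) ^ 1 := (pow_one _).symm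
      _ ≤ _ := pow_le_pow_right₀ (by linarith) (by norm_num)
  linarith

end event

/-! ### The main theorem -/

theorem levsf (hSP : STAGEF_S.{u, 0, u}) (hLV : LVUN_S.{u, u}) (hLL : LLF_S.{u})
    (hPP : PPDF_S.{u})
    (h2 : REG2F_S.{u}) (h3 : REG3F_S.{u}) (h4 : REG4F_S.{u}) (h5 : REG5F_S.{u})
    (hLM : LEVMF_S.{u}) (hPF : PFF_S.{u, 0}) (hPKF : PKSF_S.{u}) (hLD : LDF_S.{u, 0})
    (hLS : LSF_S.{u, 0}) (hNUF : NUMF_S.{u}) : LEVSF_S.{u} := by
  have hNU : NUMC_S.{u} := numc hNUF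
  have hPK : PKSC_S.{u} := pksc hPKF
  intro G _ _ _ c N g m _ hN hm
  obtain ⟨hX, -, -, -, -, -, hq, hb0, hbX, hbn, -, -, -, -⟩ := hNU G c
  obtain ⟨-, -, -, -, -, -, -, -, -, hb10, -, -, -, -, -, -⟩ := hNUF G c
  have hX0 : 0 < c.X := by linarith
  have hX1 : 1 ≤ c.X := by linarith
  have hn : c.X ^ 200000 ≤ Fintype.card G := hbX.trans hbn
  -- the models
  choose M hIs hNF using fun (τ : Bool) (i : ZMod m) => hLM G c τ m i hm.1 hm.2
  have hlam : ∀ τ i, lam0F τ 1 c.X (M τ i).H0 = 4 := by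
    intro τ i
    unfold lam0F
    rw [if_neg (by norm_num)]
  -- the test functions
  obtain ⟨m', f, hm', hf, hf'⟩ := (hPK G c).2.2.2.2.2.2.2.2.2.2.2.2.2 1 (by norm_num)
  let h : Fin m' × G → G → ℝ := fun p x => f p.1 p.2 x
  have hnX : c.X ≤ Fintype.card G := by
    calc c.X = c.X ^ 1 := (pow_one _).symm
      _ ≤ c.X ^ 200000 := pow_le_pow_right₀ hX1 (by norm_num)
      _ ≤ _ := hn
  have hn1 : (1 : ℝ) ≤ Fintype.card G := hX1.trans hnX
  have hcard : (Fintype.card (Fin m' × G) : ℝ) ≤ (Fintype.card G : ℝ) ^ 200 := by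
    rw [Fintype.card_prod, Fintype.card_fin, Nat.cast_mul]
    calc (m' : ℝ) * Fintype.card G ≤ (Fintype.card G : ℝ) ^ 150 * Fintype.card G :=
          mul_le_mul_of_nonneg_right hm' (by linarith)
      _ = (Fintype.card G : ℝ) ^ 151 := by ring
      _ ≤ (Fintype.card G : ℝ) ^ 200 := pow_le_pow_right₀ hn1 (by norm_num)
  have hds : ∀ i, SS (f i) := fun i => (hPK G c).2.2.2.2.2.2.1 1 _ (hf i).1
  have hmcard : (Fintype.card (ZMod m) : ℝ) ≤ Fintype.card G := by
    rw [ZMod.card]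
    calc (m : ℝ) ≤ 2 * c.X ^ 1000 := hm.2
      _ ≤ c.X * c.X ^ 1000 := mul_le_mul_of_nonneg_right (by linarith) (by positivity)
      _ = c.X ^ 1001 := by ring
      _ ≤ c.X ^ 200000 := pow_le_pow_right₀ hX1 (by norm_num)
      _ ≤ _ := hn
  -- the law of the fields
  let ρ : ℝ := 1 / c.X ^ 5
  let μ0 : (Fin c.T → Fld (6 * c.k + 2) G (ZMod m)) → ℝ :=
    piW (fun _ : Fin c.T => piW (fun _ : Fin (6 * c.k + 2) => piW (fun _ : G =>
      optW (fun _ : ZMod m => ρ / m))))
  have hmpos : (0 : ℝ) < m := by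
    have : 0 < c.X ^ 1000 := by positivity
    linarith [hm.1]
  have hρ0 : 0 ≤ ρ := by positivity
  have hρ1 : ρ ≤ 1 := by
    show 1 / c.X ^ 5 ≤ 1
    rw [div_le_one (by positivity)]
    exact one_le_pow₀ hX1
  have hμ1 : IsPr (piW (fun _ : Fin (6 * c.k + 2) => piW (fun _ : G =>
      optW (fun _ : ZMod m => ρ / m)))) := by
    refine H97.isPr_piW _ fun _ => H97.isPr_piW _ fun _ =>
      H97.isPr_optW _ (fun _ => by positivity) ?_
    rw [Finset.sum_const, Finset.card_univ, ZMod.card, nsmul_eq_mul]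
    have : (m : ℝ) * (ρ / m) = ρ := by field_simp
    rw [this]
    exact hρ1
  have hlaw1 : ∀ τ i, (M τ i).law = piW (fun _ : Fin (6 * c.k + 2) => piW (fun _ : G =>
      optW (fun _ : ZMod m => ρ / m))) := by
    intro τ i
    have hP : (M τ i).P = fun _ _ => ρ / m := funext fun u => funext fun l => (hIs τ i).P u l
    unfold LM.law
    rw [hP]
  have hlaw : ∀ τ i, piW (fun _ : Fin c.T => (M τ i).law) = μ0 := by
    intro τ i
    show piW (fun _ : Fin c.T => (M τ i).law) = μ0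
    rw [hlaw1]
  have hμ0 : IsPr μ0 := H97.isPr_piW _ fun _ => hμ1
  have hev : ∀ τ i, Pr (M τ i).law (fun ω => ¬ g.LG (M τ i) (c.q τ) ω) ≤
      1 / (Fintype.card G : ℝ) ^ 10 := by
    intro τ i
    refine ev_le hLD hLS hPK hNU c g hN τ m i (M τ i) (hIs τ i) ?_
    rw [hlaw1]
    exact hμ1
  -- the hypotheses on the pairs
  have hPFi : ∀ (τ : Bool) (W : G → Prop), c.Light 1 W (1 / c.X ^ 3) → ∀ i x y,
      (x ≠ y ∧ c.adm τ true 9 x y) → (M τ i).PF c.jl c.X (c.q τ) c.b1 W x y := by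
    intro τ W hW i x y hxy
    refine hPF G c τ 1 (ZMod m) (6 * c.k + 2) (M τ i) c.jl (hIs τ i).inst W hW x y hxy.1 ?_
    have := hxy.2
    unfold Ctx.adm at this ⊢
    rw [if_pos rfl] at this ⊢
    obtain ⟨j, hj, hj9, hw⟩ := this
    exact ⟨j, hj, by omega, hw⟩
  -- application of STAGEF
  have hstage : ∀ (τ : Bool) (W : G → Prop), c.Light 1 W (1 / c.X ^ 3) →
      Pr μ0 (fun ω => ¬ StageF (M τ) c.jl c.X (c.X ^ 5 * 4) (fun _ => W)
        (fun _ x y => x ≠ y ∧ c.adm τ true 9 x y) h (fun _ => 1)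
        (fun i => g.LG (M τ i) (c.q τ)) ω) ≤
        1 / (Fintype.card G : ℝ) ^ 2 := by
    intro τ W hW
    rw [← hlaw τ 0]
    refine hSP G (ZMod m) (6 * c.k + 2) (ZMod m) (M τ) c.jl c.X (c.q τ) c.b1 4 c.T (fun _ => W)
      (fun _ x y => x ≠ y ∧ c.adm τ true 9 x y) 0 (fun i => g.LG (M τ i) (c.q τ)) ?_ hmcard
      (fun i => by
        have := hNF τ i
        rw [hlam] at this
        exact this) (hPFi τ W hW) ?_ (Fin m' × G) h (fun _ => 1) hcard ?_ ?_ ?_
    · intro i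
      exact funext fun u => funext fun l => by rw [(hIs τ i).P, (hIs τ 0).P]
    · intro i
      have := hev τ i
      rw [hlaw1] at this
      rw [hlaw1]
      exact this
    · intro i v
      refine ⟨(hds _).nn _ _, ((hf i.1).2 i.2 v).trans ?_⟩
      exact div_le_div_of_nonneg_right (one_le_pow₀ hX1) hb10.le
    · intro i
      exact ⟨(hds i.1).row i.2, le_refl _⟩
    · intro i
      rw [(hIs τ i).pt]
      exact one_div_le_one_div_of_le (by positivity) (pow_le_pow_right₀ hX1 (by norm_num))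
  -- the forbidden sets
  let D0 : (Fin c.T → Fld (6 * c.k + 2) G (ZMod m)) → G → Prop :=
    fun ω v => ∃ t j l, ω t j v = some l
  have hL0 : c.Light 1 (fun w => g.W w ∨ False) (1 / c.X ^ 3) := by
    refine light_or hPK c hX g hN (fun _ => False) fun M' _ y => ?_
    rw [Finset.sum_eq_zero fun x _ => by rw [ind_not not_false, zero_mul]]
    positivity
  have hL1 : ∀ ω0, StageF (M false) c.jl c.X (c.X ^ 5 * 4) (fun _ => fun w => g.W w ∨ False)
        (fun _ x y => x ≠ y ∧ c.adm false true 9 x y) h (fun _ => 1)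
        (fun i => g.LG (M false i) (c.q false)) ω0 →
      c.Light 1 (fun w => g.W w ∨ D0 ω0 w) (1 / c.X ^ 3) := by
    intro ω0 hω
    refine light_or hPK c hX g hN (D0 ω0) fun M' hM' y => ?_
    obtain ⟨i, rfl⟩ := hf' M' hM'
    refine (sum_ind_tw (M false 0) (h (i, y)) (fun v => (hds i).nn _ _) ω0).trans ?_
    refine (hω.tw (i, y) 0).trans ?_
    rw [(hIs false 0).pt, mul_one, mul_one_div]
    have : c.X ^ 5 = c.X * c.X ^ 4 := by ring
    rw [this, ← div_div, div_self hX0.ne']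
  -- the probability space
  let E0 : (Fin c.T → Fld (6 * c.k + 2) G (ZMod m)) → Prop := fun ω0 =>
    StageF (M false) c.jl c.X (c.X ^ 5 * 4) (fun _ => fun w => g.W w ∨ False)
      (fun _ x y => x ≠ y ∧ c.adm false true 9 x y) h (fun _ => 1)
      (fun i => g.LG (M false i) (c.q false)) ω0
  let E1 : (Fin c.T → Fld (6 * c.k + 2) G (ZMod m)) →
      (Fin c.T → Fld (6 * c.k + 2) G (ZMod m)) → Prop :=
    fun ω0 ω1 => StageF (M true) c.jl c.X (c.X ^ 5 * 4) (fun _ => fun w => g.W w ∨ D0 ω0 w)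
      (fun _ x y => x ≠ y ∧ c.adm true true 9 x y) h (fun _ => 1)
      (fun i => g.LG (M true i) (c.q true)) ω1
  let μ : ((Fin c.T → Fld (6 * c.k + 2) G (ZMod m)) × (Fin c.T → Fld (6 * c.k + 2) G (ZMod m)) ×
      (G → ZMod m) × (G × G → ZMod m)) → ℝ := lw4 c m
  have hμ : IsPr μ := isPr4 μ0 μ0 _ _ hμ0 hμ0 (isPr_unifW _) (isPr_unifW _)
  let e : ℝ := 1 / (Fintype.card G : ℝ) ^ 2
  have hP4 : Pr μ (fun p => ¬ (E0 p.1 ∧ E1 p.1 p.2.1)) ≤ e + e :=
    pr4 μ0 μ0 _ _ hμ0 hμ0 (isPr_unifW _) (isPr_unifW _) E0 E1 e (hstage false _ hL0)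
      (fun ω0 hω0 => hstage true _ (hL1 ω0 hω0))
  let lam : ((Fin c.T → Fld (6 * c.k + 2) G (ZMod m)) × (Fin c.T → Fld (6 * c.k + 2) G (ZMod m)) ×
      (G → ZMod m) × (G × G → ZMod m)) → (G ⊕ (G × G) → ZMod m) := fun p =>
    Sum.elim (fstv p.1 p.2.1 p.2.2.1) p.2.2.2
  let L : ((Fin c.T → Fld (6 * c.k + 2) G (ZMod m)) × (Fin c.T → Fld (6 * c.k + 2) G (ZMod m)) ×
      (G → ZMod m) × (G × G → ZMod m)) → Prop := fun p =>
    ∃ (τ : Bool) (i : ZMod m) (t : Fin c.T),
      g.LG (M τ i) (c.q τ) ((if τ then p.2.1 else p.1) t) ∧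
      ¬ g.LL (g.lev (Sum.elim (fstv p.1 p.2.1 p.2.2.1) p.2.2.2)) (M τ i) (c.q τ)
        ((if τ then p.2.1 else p.1) t) i
  have hL : Pr μ L ≤ e := hLL G c N g m M hN hm hIs
  have hreg : ∀ prop : (G ⊕ (G × G) → ZMod m) → Prop,
      Pr (unifW (G ⊕ (G × G) → ZMod m)) (fun l => ¬ prop l) ≤ e →
      Pr μ (fun p => ¬ prop (lam p)) ≤ e := by
    intro prop hprop
    have := hLV G (G × G) m c.T (6 * c.k + 2) ρ hρ0 hρ1 (fun ω0 ω1 d v => fstv ω0 ω1 d v)
      (fun ω0 ω1 d v h0 h1 => by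
        show fstv ω0 ω1 d v = d v
        unfold fstv
        rw [fo_none (fun t j => h0 t j), fo_none (fun t j => h1 t j)]
        rfl)
      (fun ω0 ω1 d v t j l h0 h1 => by
        show fstv ω0 ω1 d v = l
        unfold fstv
        rw [fo_some (l := l) ⟨t, j, h0, h1⟩]
        rfl)
      (fun ω0 ω1 d v t j l h0 h1 h1' => by
        show fstv ω0 ω1 d v = l
        unfold fstv
        rw [fo_none (fun t j => h0 t j), fo_some (l := l) ⟨t, j, h1, h1'⟩]
        rfl) (fun l => ind (¬ prop l))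
    unfold Pr
    unfold Pr at hprop
    exact (le_of_eq this).trans hprop
  have hr2 := hreg (fun l => g.e2 (g.lev l)) (h2 G c N g m hN hm)
  have hr3 := hreg (fun l => g.e3 (g.lev l)) (h3 G c N g m hN hm)
  have hr4 := hreg (fun l => g.e4 (g.lev l)) (h4 G c N g m hN hm)
  have hr5 := hreg (fun l => g.e5 (g.lev l)) (h5 G c N g m hN hm)
  have htot : Pr μ (fun p => L p ∨ ¬ (E0 p.1 ∧ E1 p.1 p.2.1) ∨ ¬ g.e2 (g.lev (lam p)) ∨
      ¬ g.e3 (g.lev (lam p)) ∨ ¬ g.e4 (g.lev (lam p)) ∨ ¬ g.e5 (g.lev (lam p))) < 1 := by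
    have a1 := H97.pr_or μ hμ.nn (fun p => ¬ g.e4 (g.lev (lam p)))
      (fun p => ¬ g.e5 (g.lev (lam p)))
    have a2 := H97.pr_or μ hμ.nn (fun p => ¬ g.e3 (g.lev (lam p)))
      (fun p => ¬ g.e4 (g.lev (lam p)) ∨ ¬ g.e5 (g.lev (lam p)))
    have a3 := H97.pr_or μ hμ.nn (fun p => ¬ g.e2 (g.lev (lam p)))
      (fun p => ¬ g.e3 (g.lev (lam p)) ∨ ¬ g.e4 (g.lev (lam p)) ∨ ¬ g.e5 (g.lev (lam p)))
    have a4 := H97.pr_or μ hμ.nn (fun p => ¬ (E0 p.1 ∧ E1 p.1 p.2.1))
      (fun p => ¬ g.e2 (g.lev (lam p)) ∨ ¬ g.e3 (g.lev (lam p)) ∨ ¬ g.e4 (g.lev (lam p)) ∨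
        ¬ g.e5 (g.lev (lam p)))
    have a5 := H97.pr_or μ hμ.nn L (fun p => ¬ (E0 p.1 ∧ E1 p.1 p.2.1) ∨
      ¬ g.e2 (g.lev (lam p)) ∨ ¬ g.e3 (g.lev (lam p)) ∨ ¬ g.e4 (g.lev (lam p)) ∨
        ¬ g.e5 (g.lev (lam p)))
    have he : 7 * e < 1 := by
      show 7 * (1 / (Fintype.card G : ℝ) ^ 2) < 1
      rw [mul_one_div, div_lt_one (by positivity)]
      nlinarith
    linarith
  obtain ⟨p, -, hp⟩ := H97.pr_good μ hμ _ htot
  push Not at hp
  obtain ⟨hLp, ⟨hE0, hE1⟩, he2, he3, he4, he5⟩ := hp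
  have hio : ∀ τ, ∀ e ∈ g.res.E τ, g.lev (lam p) (g.i τ e) = g.lev (lam p) (g.o τ e) :=
    fun τ e he => lev_io g (lam p) τ e he
  have hLLp : ∀ (τ : Bool) (i : ZMod m) (t : Fin c.T),
      g.LG (M τ i) (c.q τ) ((if τ then p.2.1 else p.1) t) →
      g.LL (g.lev (lam p)) (M τ i) (c.q τ) ((if τ then p.2.1 else p.1) t) i := by
    intro τ i t hG
    by_contra hc
    exact hLp ⟨τ, i, t, hG, hc⟩
  have hp0 := hPP G c N g m false (M false) (g.lev (lam p)) p.1 (fun _ => False) (by omega) hm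
    (hIs false)
    (fun i x y hxy hadm => ⟨(hPFi false _ hL0 i x y ⟨hxy, hadm⟩).f0,
      hE0.low i x y ⟨hxy, hadm⟩⟩)
    (fun i t => (hE0.ev i t).2.2)
    (fun i t => hLLp false i t (hE0.ev i t))
    (fun v hv _ t j l hval hearly hslot => by
      rw [lev_out g (lam p) hv]
      show fstv p.1 p.2.1 p.2.2.1 v = l
      unfold val at hval
      split at hval
      · next hj =>
        unfold fstv
        rw [fo_some (l := l) ⟨t, ⟨j, hj⟩, hval, ?_⟩]
        · rfl
        · intro t' j' hlt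
          rcases hlt with hlt | ⟨rfl, hlt⟩
          · cases hv' : p.1 t' j' v with
            | none => rfl
            | some l' =>
              refine absurd ?_ (hearly t' hlt j' l')
              unfold val
              rw [dif_pos j'.2]
              exact hv'
          · cases hv' : p.1 t' j' v with
            | none => rfl
            | some l' =>
              have : (j' : ℕ) = j := hslot j' l' (by
                unfold val
                rw [dif_pos j'.2]
                exact hv')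
              have hlt' : (j' : ℕ) < j := hlt
              omega
      · cases hval)
    hio he2
  have hp1 := hPP G c N g m true (M true) (g.lev (lam p)) p.2.1 (D0 p.1) (by omega) hm
    (hIs true)
    (fun i x y hxy hadm => ⟨(hPFi true _ (hL1 p.1 hE0) i x y ⟨hxy, hadm⟩).f0,
      hE1.low i x y ⟨hxy, hadm⟩⟩)
    (fun i t => (hE1.ev i t).2.2)
    (fun i t => hLLp true i t (hE1.ev i t))
    (fun v hv hD t j l hval hearly hslot => by
      rw [lev_out g (lam p) hv]
      show fstv p.1 p.2.1 p.2.2.1 v = l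
      unfold val at hval
      split at hval
      · next hj =>
        unfold fstv
        rw [fo_none (fun t j => ?_), fo_some (l := l) ⟨t, ⟨j, hj⟩, hval, ?_⟩]
        · rfl
        · intro t' j' hlt
          rcases hlt with hlt | ⟨rfl, hlt⟩
          · cases hv' : p.2.1 t' j' v with
            | none => rfl
            | some l' =>
              refine absurd ?_ (hearly t' hlt j' l')
              unfold val
              rw [dif_pos j'.2]
              exact hv'
          · cases hv' : p.2.1 t' j' v with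
            | none => rfl
            | some l' =>
              have : (j' : ℕ) = j := hslot j' l' (by
                unfold val
                rw [dif_pos j'.2]
                exact hv')
              have hlt' : (j' : ℕ) < j := hlt
              omega
        · cases hv' : p.1 t j v with
          | none => rfl
          | some l' => exact absurd ⟨t, j, l', hv'⟩ hD
      · cases hval)
    hio he2
  refine ⟨g.lev (lam p), ⟨hio, fun e he => lev_port_true g (lam p) he (i_mem g he),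
    hp0.1 rfl, hp1.2 rfl, he2, he3, he4, he5⟩⟩

end Pool.Agent.Lib.MP_688fd0_co.TF.H30
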